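import Pool.Agent.Helper326_EC.Main

/-!
# MP_2a9600_co: distinct roots of edge cover polynomials at minimum degree two

Let `G` be a finite connected graph with minimum degree exactly `2` that is not a triangle. Then its edge cover
polynomial has at least three distinct complex roots. This answers Q1 in the affirmative.

Idea of the proof. Suppose there are at most two distinct roots. The three highest coefficients force the polynomial to be
`x ^ s (x + 2) ^ s`, with `2 s` edges and `s` vertices of degree two, or `x ^ (2 b) (x + 3) ^ b`, with all degrees equal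
to two. So no edge cover is small, and the theorem of Tutte (in a deficiency form) gives a set `U` of vertices
such that `G - U` has many odd components. Counting edges excludes the second case (unless `G` is a triangle), and in
the first case shows that `U` is independent and that every odd component `A` has `|A| + 1` edges touching it and at
most one vertex of degree not two (and then it is of degree three). Then at most `3 ^ q` sets of these edges cover `A`, where `q` is the number of
vertices of degree two in `A`; multiplying, fewer than `3 ^ s` sets of edges cover `G`. But the value of the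
polynomial at `1` is `3 ^ s`. The graphs where `U` may be empty have at most five vertices.
-/

set_option autoImplicit false

namespace Pool.Agent.Results.MP_2a9600_co.ThreeRoots

/-- `F` is an edge covering set of `G`: a set of edges of `G` such that every vertex is an endpoint of
at least one edge in `F`. -/
def IsEdgeCover {V : Type} (G : SimpleGraph V) (F : Finset (Sym2 V)) : Prop :=
  (∀ e ∈ F, e ∈ G.edgeSet) ∧ ∀ v : V, ∃ e ∈ F, v ∈ e

/-- `e(G, i)`: the number of edge covering sets of `G` with exactly `i` edges. -/
noncomputable def coverCount {V : Type} (G : SimpleGraph V) (i : ℕ) : ℕ :=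
  {F : Finset (Sym2 V) | IsEdgeCover G F ∧ F.card = i}.ncard

/-- The edge cover polynomial of `G`, as a complex polynomial. -/
noncomputable def coverPoly {V : Type} (G : SimpleGraph V) : Polynomial ℂ :=
  ∑ i ∈ Finset.range (G.edgeSet.ncard + 1), Polynomial.C (coverCount G i : ℂ) * Polynomial.X ^ i

/-- The degree of a vertex. -/
noncomputable def deg {V : Type} (G : SimpleGraph V) (v : V) : ℕ := (G.neighborSet v).ncard

theorem coverCount_eq {V : Type} [Fintype V] [DecidableEq V] (G : SimpleGraph V) [DecidableRel G.Adj] (i : ℕ) :
    (coverCount G i : ℤ) = (Helper326_EC.EP G).coeff i := by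
  rw [Helper326_EC.EP_coeff]
  unfold coverCount
  have : {F : Finset (Sym2 V) | IsEdgeCover G F ∧ F.card = i} =
      (((Helper326_EC.covers G).filter (fun F => F.card = i) : Finset (Finset (Sym2 V))) : Set (Finset (Sym2 V))) := by
    ext F
    simp only [Set.mem_ofPred_eq, IsEdgeCover, Helper326_EC.covers, Finset.coe_filter, Finset.mem_filter,
      Finset.mem_powerset]
    constructor
    · rintro ⟨⟨h1, h2⟩, h3⟩
      exact ⟨⟨fun e he => by rw [SimpleGraph.mem_edgeFinset]; exact h1 e he, h2⟩, h3⟩
    · rintro ⟨⟨h1, h2⟩, h3⟩
      exact ⟨⟨fun e he => by have := h1 he; rwa [SimpleGraph.mem_edgeFinset] at this, h2⟩, h3⟩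
  rw [this, Set.ncard_coe_finset]

theorem coverPoly_eq {V : Type} [Fintype V] [DecidableEq V] (G : SimpleGraph V) [DecidableRel G.Adj]
    (hδ : ∀ v, 2 ≤ G.degree v) : coverPoly G = (Helper326_EC.EP G).map (Int.castRingHom ℂ) := by
  have hm : G.edgeSet.ncard = G.edgeFinset.card := by
    rw [← SimpleGraph.coe_edgeFinset, Set.ncard_coe_finset]
  ext i
  rw [Polynomial.coeff_map]
  unfold coverPoly
  rw [Polynomial.finsetSum_coeff, hm]
  simp only [Polynomial.coeff_C_mul, Polynomial.coeff_X_pow]
  by_cases hi : i < G.edgeFinset.card + 1
  · rw [Finset.sum_eq_single i]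
    · rw [← coverCount_eq]; simp
    · intro j _ hj; simp [hj.symm]
    · intro h; exact absurd (Finset.mem_range.mpr hi) h
  · rw [Finset.sum_eq_zero]
    · rw [Polynomial.coeff_eq_zero_of_natDegree_lt]
      · simp
      · rw [(Helper326_EC.EP_deg G hδ).1]; omega
    · intro j hj
      rw [Finset.mem_range] at hj
      have : i ≠ j := by omega
      simp [this]

/-- **Q1 of MP_2a9600_co, in the affirmative.** Every finite connected graph `G` with minimum degree `2` that is
not isomorphic to the triangle has an edge cover polynomial with at least three distinct complex roots. -/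
theorem result (V : Type) [Finite V] (G : SimpleGraph V) (hG : G.Connected)
    (hmin : (∀ v, 2 ≤ deg G v) ∧ ∃ v, deg G v = 2)
    (hK : ¬ Nonempty (G ≃g (⊤ : SimpleGraph (Fin 3)))) :
    3 ≤ {z : ℂ | (coverPoly G).IsRoot z}.ncard := by
  classical
  have : Fintype V := Fintype.ofFinite V
  have hd : ∀ v, deg G v = G.degree v := by
    intro v
    have h1 : ((G.neighborFinset v : Finset V) : Set V) = G.neighborSet v := G.coe_neighborFinset v
    calc deg G v = ((G.neighborFinset v : Finset V) : Set V).ncard := by rw [h1]; rfl
      _ = (G.neighborFinset v).card := Set.ncard_coe_finset _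
      _ = G.degree v := G.card_neighborFinset_eq_degree v
  have hδ : ∀ v, 2 ≤ G.degree v := fun v => by rw [← hd]; exact hmin.1 v
  have h2 : ∃ v, G.degree v = 2 := by
    obtain ⟨v, hv⟩ := hmin.2
    exact ⟨v, by rw [← hd]; exact hv⟩
  have h := Helper326_EC.main G hG hδ h2 hK
  have e : {z : ℂ | (coverPoly G).IsRoot z} = {z : ℂ | Polynomial.aeval z (Helper326_EC.EP G) = 0} := by
    ext z
    simp only [Set.mem_ofPred_eq]
    rw [coverPoly_eq G hδ, Polynomial.IsRoot.def, Polynomial.eval_map, Polynomial.aeval_def]
    rfl
  rw [e]
  exact h

end Pool.Agent.Results.MP_2a9600_co.ThreeRoots
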